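import Pool.Agent.Helper24.KK.GoalsA

/-! Packet KK-POS (MP_9a4587_an): injectivity of the positions. -/

set_option autoImplicit false

namespace Pool.Agent.Helper42.KK

open Pool.Agent.Helper24.KK

theorem h42_bd {p q N B : ℕ} (hB : B ≤ N) (hq : 0 < q) (hN : 0 < N) :
    p * (B + q) ≤ 2 * (p * q * N) := by
  have h1 : N ≤ q * N := Nat.le_mul_of_pos_left N hq
  have h2 : q ≤ q * N := Nat.le_mul_of_pos_right q hN
  calc p * (B + q) ≤ p * (2 * (q * N)) := Nat.mul_le_mul_left _ (by omega)
    _ = 2 * (p * q * N) := by ring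

theorem h42_L (p q N : ℕ) : (4 * p * q + 4) * N = 4 * (p * q * N) + 4 * N := by ring

theorem h42_u {p q M B n : ℕ} (hq : 0 < q) (hn : n < M) (i : Fin (M + B)) :
    (i.1 + p * (B + q) + n) % ((4 * p * q + 4) * (M + B)) = i.1 + p * (B + q) + n := by
  apply Nat.mod_eq_of_lt
  have h1 := h42_bd (p := p) (q := q) (N := M + B) (B := B) (by omega) hq (by omega)
  have h2 := i.2
  rw [h42_L]
  omega

theorem h42_d {p q B b j : ℕ} (hj : j < q) (hb : b < B) : p * ((j + b) / q) ≤ p * (B + q) := by
  apply Nat.mul_le_mul_left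
  exact (Nat.div_le_self _ _).trans (by omega)

theorem h42_v {sg : Bool} {p q M B b : ℕ} (hq : 0 < q) (hb : b < B) (m : Fin (M + B) × Fin q) :
    (if sg then m.1.1 + p * (B + q) + p * ((m.2.1 + b) / q)
      else m.1.1 + p * (B + q) - p * ((m.2.1 + b) / q)) % ((4 * p * q + 4) * (M + B)) =
    (if sg then m.1.1 + p * (B + q) + p * ((m.2.1 + b) / q)
      else m.1.1 + p * (B + q) - p * ((m.2.1 + b) / q)) := by
  apply Nat.mod_eq_of_lt
  have h1 := h42_bd (p := p) (q := q) (N := M + B) (B := B) (by omega) hq (by omega)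
  have h2 := m.1.2
  have h3 := h42_d (p := p) m.2.2 hb
  rw [h42_L]
  generalize p * ((m.2.1 + b) / q) = E at *
  generalize p * (B + q) = F at *
  generalize p * q * (M + B) = G at *
  split_ifs <;> omega

theorem h42_vfst {sg : Bool} {p q M B b : ℕ} (hq : 0 < q) (hb : b < B)
    (m : Fin (M + B) × Fin q) :
    (vpos sg p q M B b m).1.1 =
    (if sg then m.1.1 + p * (B + q) + p * ((m.2.1 + b) / q)
      else m.1.1 + p * (B + q) - p * ((m.2.1 + b) / q)) := h42_v hq hb m

theorem h42_mod {q j j' b : ℕ} (hj : j < q) (hj' : j' < q) (h : (j + b) % q = (j' + b) % q) :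
    j = j' := by
  have h1 : j + b ≡ j' + b [MOD q] := h
  have h2 : j ≡ j' [MOD q] := Nat.ModEq.add_right_cancel' b h1
  unfold Nat.ModEq at h2
  rwa [Nat.mod_eq_of_lt hj, Nat.mod_eq_of_lt hj'] at h2

theorem pos : POS := by
  intro sg p q M B hp hq
  refine ⟨?_, ?_, ?_, ?_⟩
  · intro n hn m m' h
    have h1 := congrArg (fun z => z.1.1) h
    have h2 := congrArg (fun z => z.2) h
    simp only [upos] at h1 h2
    rw [h42_u hq hn, h42_u hq hn] at h1
    exact Prod.ext (Fin.ext (by omega)) h2
  · intro n hn k hk m h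
    have h1 := congrArg (fun z => z.1.1) h
    simp only [upos] at h1
    rw [h42_u hq hn, h42_u hq hk] at h1
    omega
  · intro b hb m m' h
    have h1 := congrArg (fun z => z.1.1) h
    have h2 := congrArg (fun z => z.2.1) h
    beta_reduce at h1 h2
    rw [h42_vfst hq hb, h42_vfst hq hb] at h1
    have h3 : m.2.1 = m'.2.1 := h42_mod m.2.2 m'.2.2 h2
    have h4 := h42_d (p := p) m.2.2 hb
    have h5 := h42_d (p := p) m'.2.2 hb
    rw [← h3] at h1 h5
    refine Prod.ext (Fin.ext ?_) (Fin.ext h3)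
    generalize p * ((m.2.1 + b) / q) = E at *
    generalize p * (B + q) = F at *
    split_ifs at h1 <;> omega
  · intro b hb b' hb' m h
    have h1 := congrArg (fun z => z.1.1) h
    have h2 := congrArg (fun z => z.2.1) h
    beta_reduce at h1 h2
    rw [h42_vfst hq hb, h42_vfst hq hb'] at h1
    have h4 := h42_d (p := p) m.2.2 hb
    have h5 := h42_d (p := p) m.2.2 hb'
    have h6 : p * ((m.2.1 + b) / q) = p * ((m.2.1 + b') / q) := by
      generalize p * ((m.2.1 + b) / q) = E at *
      generalize p * ((m.2.1 + b') / q) = E' at *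
      generalize p * (B + q) = F at *
      split_ifs at h1 <;> omega
    have h7 : (m.2.1 + b) / q = (m.2.1 + b') / q := Nat.eq_of_mul_eq_mul_left hp h6
    have h8 : (m.2.1 + b) % q = (m.2.1 + b') % q := h2
    have h9 := Nat.div_add_mod (m.2.1 + b) q
    have h10 := Nat.div_add_mod (m.2.1 + b') q
    rw [h7, h8] at h9
    omega

end Pool.Agent.Helper42.KK
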